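import Pool.Agent.N214.QR.Main

/-!
# Derived invariance of Hodge numbers: semiample canonical or anticanonical bundle

Let `X` and `Y` be smooth projective complex varieties of dimension `n` with `D(X) ≃ D(Y)` such that
the canonical (or the anticanonical) bundles are semiample, and let `L`, `L'` be the first Chern
classes of these bundles.  `KRing` is the Hodge theory of a smooth projective variety and `FM` the
isomorphism of cohomology which is induced by the equivalence (real, compatible with the grading by
`p - q`, isometric for the Mukai pairings); it commutes with the multiplications by `L` and `L'`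
because the equivalence commutes with the Serre functors (`Intertwines`).  `Semiample` says that the
Hodge-Riemann relations hold for the forms `∫ L ^ k ω ^ l x conj(y)` on the quotient of the cohomology
by the classes which are killed by `L ^ k`.  This is the Hodge-Riemann theorem for a complete
intersection `Z` of `k` general members of a base point free multiple: the image of
`H^*(X) → H^*(Z)` is the space of the monodromy invariants (Deligne), the intersection form is
nondegenerate on it, so that it is the quotient of `H^*(X)` by the classes killed by `L ^ k`.

The theorem, in all dimensions and for all Iitaka dimensions `κ`: for every `k` the ranks of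
`L ^ k : H^{p,q} → H^{p+k,q+k}` satisfy the relations which are known for the Hodge numbers of derived
equivalent varieties of dimension `n - k` (the sums over `p - q = d`, and the relations of
`HodgeInertia`, which is the case `k = 0`).  In particular the rank of `L ^ (n - 2 - p)` on the space
of the holomorphic `p`-forms is a derived invariant, so `h^{p,0}` is one, as soon as the kernels have
the same dimension.  The kernels are zero if `κ ≥ n - 2`: a holomorphic `p`-form which is killed by
`L ^ k` vanishes on the general complete intersections of codimension `k` in the base, which is
impossible for `k + p ≤ κ`.  If `κ = n - 3`, they are the spaces of the `p`-forms of the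
common canonical model.  So the numbers `h^{0,q}` are derived invariants for all `q` if `κ ≥ n - 3`.

The proof: the quotient of the cohomology ring by the annihilator of `L ^ k`, with the integral
`x ↦ ∫ L ^ k x`, is again a `KRing`, of dimension `n - k`, although in general it is not the
cohomology of a variety, and the transform induces a transform of these quotients.
-/

namespace Pool.Agent.Results.MP_b4fe5e_ag.SemiampleCanonical

open Pool.Agent.W539.DI Pool.Agent.R929.DH Pool.Agent.N214.QR

/-- **Theorem.** -/
theorem result {n : ℕ} (X Y : KRing n) (Φ : FM X Y) (L : X.R) (L' : Y.R)
    (hX : Semiample X L) (hY : Semiample Y L') (hL : Intertwines Φ L L') :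
    (∀ (k : ℕ) (d : ℤ), ∑ j ∈ Finset.Icc (0 : ℤ) n, powRank X L k (d + j) j =
      ∑ j ∈ Finset.Icc (0 : ℤ) n, powRank Y L' k (d + j) j) ∧
    (∀ a b k : ℕ, a + b + k = n →
      (∑ i ∈ Finset.range n, powRank X L k (a - 1 - 2 * i) (b - 1 - 2 * i) =
        ∑ i ∈ Finset.range n, powRank Y L' k (a - 1 - 2 * i) (b - 1 - 2 * i)) ∧
      (powRank X L k a b +
          2 * ∑ i ∈ Finset.range n, powRank X L k (a - 2 - 2 * i) (b - 2 - 2 * i) =
        powRank Y L' k a b +
          2 * ∑ i ∈ Finset.range n, powRank Y L' k (a - 2 - 2 * i) (b - 2 - 2 * i))) ∧
    (∀ (p : ℤ) (k : ℕ), p + 2 + k = n → powRank X L k p 0 = powRank Y L' k p 0) ∧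
    (∀ p : ℤ, (∀ k : ℕ, p + 2 + k = n → kerDim X L k p 0 = kerDim Y L' k p 0) →
      X.h p 0 = Y.h p 0) :=
  ⟨fun k d => column Φ hX hY hL k d, fun a b k hab => sums Φ hX hY hL a b k hab,
    fun p k hp => edge Φ hX hY hL k p hp, fun p hk => forms Φ hX hY hL p hk⟩

end Pool.Agent.Results.MP_b4fe5e_ag.SemiampleCanonical
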