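import Pool.Agent.N214.QR.Five

/-!
# Derived invariance of Hodge numbers: fivefolds with semiample canonical or anticanonical bundle

Let `X` and `Y` be smooth projective complex varieties of dimension `5` with `D(X) ≃ D(Y)` such that
the canonical (or the anticanonical) bundles are semiample, and let `L`, `L'` be the first Chern
classes of these bundles.  `KRing` is the Hodge theory of a smooth projective variety, `FM` the
isomorphism of cohomology which is induced by the equivalence, which commutes with `L` and `L'`
(`Intertwines`) because the equivalence commutes with the Serre functors, `Semiample` the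
Hodge-Riemann relations on the quotient of the cohomology by the classes killed by `L ^ k` (which is
the space of the monodromy invariant classes of a general complete intersection of members of a base
point free multiple of `L`), `ChernClasses` the Chern classes with the formula of Libgober and Wood.

* `hdiv`: smooth members of `|m L|` and the corresponding members of `|m L'|` have the same Euler
  number, because they are derived equivalent (Toda), if `m` is divisible enough.
* `hk1`, `hk2`: the kernels of `L²` on the holomorphic one-forms and of `L` on the holomorphic
  two-forms have the same dimension for `X` and for `Y`.  They are zero if the Iitaka dimension `κ`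
  is at least three.  If `κ = 2`, they are the spaces of one-forms and two-forms of the common
  canonical model; if `κ = 1`, they are `H^{1,0}` (Popa and Schnell) and `H^1(B, j_* R^1 f_* ℂ)^{2,0}`
  (the variations of Hodge structure `R^1 f_* ℚ`, `R^1 g_* ℚ` of the two Iitaka fibrations are
  isomorphic by Rouquier's theorem and semisimplicity).

The theorem: `X` and `Y` have the same Hodge numbers.  Only the case of a torsion canonical bundle
(`TorsionCanonicalFivefolds`) and, for arbitrary dimension, the case of Iitaka fibrations of defect at
most two (`SmallDefect`) are in the earlier files.

The proof: `H^*(X) / Ann(L ^ k)` is a `KRing` of dimension `5 - k`; the inertia theorem for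
`k = 2, 1` shows that the ranks of `L²` on `H^{1,0}` and of `L` on `H^{2,0}` are derived invariants;
the inertia theorem for `X` itself gives all numbers in odd degree and `h^{2,0} + h^{3,1}`,
`h^{1,1} + h^{2,2}`; the formula of Libgober and Wood gives the second Betti number.
-/

namespace Pool.Agent.Results.MP_b4fe5e_ag.SemiampleFivefolds

open Pool.Agent.W539.DI Pool.Agent.R929.DH Pool.Agent.N214.QR

/-- **Theorem.** -/
theorem result (X Y : KRing 5) (Φ : FM X Y) (L : X.R) (L' : Y.R)
    (hX : Semiample X L) (hY : Semiample Y L') (hL : Intertwines Φ L L')
    (hc : (L = X.c ∧ L' = Y.c) ∨ (L = -X.c ∧ L' = -Y.c))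
    (C : ChernClasses X) (C' : ChernClasses Y) (S : Set ℕ) (hS : S.Infinite)
    (hdiv : ∀ m ∈ S, divisorEuler C L m = divisorEuler C' L' m)
    (hk1 : kerDim X L 2 1 0 = kerDim Y L' 2 1 0) (hk2 : kerDim X L 1 2 0 = kerDim Y L' 1 2 0)
    (p q : ℤ) : X.h p q = Y.h p q :=
  five Φ hX hY hL C C' (chern_number' C C' (by norm_num) S hS hdiv hc) hk1 hk2 p q

end Pool.Agent.Results.MP_b4fe5e_ag.SemiampleFivefolds
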